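import Mathlib
import Pool.Agent.Y221.AH.Top

/-!
MP_6f117a_ag, Q1: algebraic hyperbolicity, boundedness, grouplessness and subvarieties of general
type for the finite images of systems of high powers, and of their covers.

Let `V = {F = 0}` in `ℙⁿ` be a projective variety given by sums of at most `s` powers of linear
forms, or by forms with at most `s` monomials and divisible exponents. We consider the images
`X = {Φ = 0}` of `V` (and of the varieties `W = {Ψ = 0}` with a morphism to `V`) under finite
morphisms with fibres of at most `r` points, where the exponents are at least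
`4 n 10 ^ s (r + 1) ^ 7`. No assumption is made on the singularities and the branch loci.

The definitions are in `Pool/Agent/Y221/FQ/Defs.lean` (`Mor`, `Onto`, `FibresLe`, `AllGeneral`),
`Pool/Agent/W603/CX/Groupless.lean` (`AlgHyperbolic`, `BoundedOnCurves`),
`Pool/Agent/W602/GT/SpGmDefs.lean` (`GmCurve`), `Pool/Agent/W602/GT/Cls.lean` (`HighPowers`) and
`Pool/Agent/Y221/AH/Top.lean` (`CoverHyperbolic`).
-/

set_option autoImplicit false

namespace Pool.Agent.Results.MP_6f117a_ag.FiniteImages

open Pool.Agent.W602.GT Pool.Agent.Y221.FQ Pool.Agent.Y221.AH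
open Pool.Agent.W603.CX (AlgHyperbolic BoundedOnCurves)

/-- Let `k` be an algebraically closed field of characteristic `0` and `V = {F = 0}`, `s`, `N`, `r`
as above.

(1) If `G : V → X = {Φ = 0}` is a surjective morphism with fibres of at most `r` points, then the
following are equivalent: `X` is algebraically hyperbolic; for every smooth projective curve the
degrees of the morphisms to `X` are bounded; there is no nonconstant morphism from the
multiplicative group to `X`; all closed subvarieties of positive dimension of `X` are of general
type; there is no nonconstant morphism from the multiplicative group to `V`.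

(2) If there is no nonconstant morphism from the multiplicative group to `V`, and `W = {Ψ = 0}` is
a projective variety with a morphism `B : W → V` and a surjective morphism `G : W → X = {Φ = 0}`
with fibres of at most `r` points, then `X` is algebraically hyperbolic and all closed subvarieties
of positive dimension of `X` are of general type.

(3) For `r ≥ 1` there is no nonconstant morphism from the multiplicative group to `V` if and only
if, for some `A`, for every morphism of degree at most `r` between smooth projective curves
`C' → C` and every morphism `C' → V`, the degree of the latter is at most `A max (2 g (C) - 2, 0)`,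
where `g (C)` is the genus of the lower curve `C`. -/
theorem result {k : Type} [Field k] [IsAlgClosed k] [CharZero k] {n M : ℕ} {ι μ : Type} [Finite ι]
    {F : ι → MvPolynomial (Fin (n + 1)) k} {Φ : μ → MvPolynomial (Fin (M + 1)) k} {s N r : ℕ}
    (hF : HighPowers s N F) (hn : 1 ≤ n) (hN : n * (4 * 10 ^ s * (r + 1) ^ 7) ≤ N)
    (hΦ : ∀ e, IsForm (Φ e)) :
    (∀ G : Fin (M + 1) → MvPolynomial (Fin (n + 1)) k, Mor F Φ G → Onto F Φ G → FibresLe F G r →
      [∃ A : ℕ, AlgHyperbolic A Φ, BoundedOnCurves Φ, ∀ P, ¬ GmCurve Φ P, AllGeneral Φ,
        ∀ P, ¬ GmCurve F P].TFAE) ∧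
    ((∀ P, ¬ GmCurve F P) → ∀ (m : ℕ) (κ : Type) (Ψ : κ → MvPolynomial (Fin (m + 1)) k)
      (B : Fin (n + 1) → MvPolynomial (Fin (m + 1)) k)
      (G : Fin (M + 1) → MvPolynomial (Fin (m + 1)) k), (∀ e, IsForm (Ψ e)) → Mor Ψ F B →
      Mor Ψ Φ G → Onto Ψ Φ G → FibresLe Ψ G r →
      (∃ A : ℕ, AlgHyperbolic A Φ) ∧ AllGeneral Φ) ∧
    (1 ≤ r → ((∃ A, CoverHyperbolic r A F) ↔ ∀ P, ¬ GmCurve F P)) :=
  ⟨fun _ hG hon hfib => tfae_im hΦ hG hon hfib hF hn hN,
    fun hGm _ _ _ _ _ hΨ hB hG hon hfib => hyp_of_cover hΨ hB hG hon hfib hF hn hN hGm,
    fun hr => cover_iff hr hF hn hN⟩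

end Pool.Agent.Results.MP_6f117a_ag.FiniteImages
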