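import Pool.Agent.Q58.LG.Cmp

/-!
MP_6f117a_ag, Q1: the algebraic notions of hyperbolicity for the finite images of generic complete
intersections and of their covers, with an explicit constant for algebraic hyperbolicity.

Let `k` be a subfield of the complex numbers, with algebraic closure `k'` in `ℂ`. Let `V` be a closed
subset of `ℙⁿ`, defined over `k'`, of dimension at most `m`, and let `F_a` be finitely many forms
over `ℂ` of degrees `d_a`, whose coefficients are all together algebraically independent over `k`
(this holds for very general forms, if `k` is countable). Let `X₀` be the intersection of `V` with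
the hypersurfaces `F_a = 0`.

Let `W = {Ψ = 0}` and `Y = {Φ = 0}` be projective varieties over `ℂ`, with a morphism `B : W → X₀`
given by forms of degree `e_B` and a surjective morphism `G : W → Y` given by forms of degree `e_G`,
with fibres of at most `r` points. (The forms have no common zeros on `W` and the degrees are
positive, so the morphisms are finite. For example `W` can be a closed subvariety of `X₀` or of a
finite cover of `X₀`, and `Y` its image in a projective space under a finite morphism; the branch
locus and the singularities are arbitrary, and `Y` has no morphism to `X₀` in general.)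

(I) If `2 m + 2 r ≤ ∑ (d_a + 1) + 1` then for every morphism `f` from a smooth projective curve of
genus `g` to `Y`
`e_B (∑ (d_a + 1) + 2 - 2 m - 2 r) deg f ≤ e_G max (2 g - 2, 0)`.
So `Y` is algebraically hyperbolic, with an explicit constant, which depends only on the degrees.

(II) If `2 m + 1 + r ≤ ∑ (d_a + 1)` then `Y` is bounded, groupless and hyperbolic: for each smooth
projective curve the degrees of the morphisms to `Y` are bounded, there is no nonconstant morphism
from the multiplicative group to `Y` (and none from an abelian variety, by the boundedness), and all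
closed subvarieties of positive dimension of `Y` are of general type.

For `r ≥ 1` and `2 m + 2 r ≤ ∑ (d_a + 1)` both parts apply, and `Y` and all its closed subvarieties
have all four properties of the question.

(III) Let `W = X₀`, with `V = ℙⁿ`, so `Y` is an image of a generic complete intersection, let
`r ≥ 1`, and suppose that `∑ (d_a + 1) ≤ 2 n - 2` or `2 n + 2 r ≤ ∑ (d_a + 1)`. Then the following
are equivalent: `Y` is algebraically hyperbolic; `Y` is bounded; there is no nonconstant morphism
from the multiplicative group to `Y`; all closed subvarieties of positive dimension of `Y` are of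
general type; `2 n - 1 ≤ ∑ (d_a + 1)`. (In general, algebraically hyperbolic varieties are bounded,
bounded varieties are groupless, and there is no nonconstant morphism from the multiplicative group
to a groupless variety, so for these `Y` all the properties of the question are equivalent.)

A morphism `f` from a smooth projective curve is given by the vector of its homogeneous coordinates
in the function field `L` of the curve; `pht ℂ f` is the degree of the pullback of `O(1)` and
`canDeg ℂ L` is `2 g - 2`.

The definitions are in `Pool/Agent/Y221/FQ/Defs.lean` (`Mor`, `Onto`, `FibresLe`, `AllGeneral`),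
`Pool/Agent/W602/GT/SpDefs.lean` (`SubVar`), `Pool/Agent/W602/GT/SpGmDefs.lean` (`GmCurve`),
`Pool/Agent/W603/CX/Groupless.lean` (`AlgHyperbolic`, `BoundedOnCurves`),
`Pool/Agent/W603/PV/Hgt.lean` (`pht`), `Pool/Agent/W603/LV/Ex.lean` (`canDeg`),
`Pool/Agent/TH145/MG/Dim.lean` (`DimLE`) and `Pool/Agent/Q58/FI/Eqs.lean` (`eqs V F`, the equations
of `V` together with the forms `F_a`).
-/

set_option autoImplicit false

namespace Pool.Agent.Results.MP_6f117a_ag.ImagesOfIntersections

open MvPolynomial FF
open Pool.Agent.TH145.MG (DimLE)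
open Pool.Agent.W602.GT (IsForm GmCurve val)
open Pool.Agent.W603.CX (AlgHyperbolic BoundedOnCurves)
open Pool.Agent.W603.PV (pht)
open Pool.Agent.W603.LV (canDeg)
open Pool.Agent.Y221.FQ (Mor Onto FibresLe AllGeneral)
open Pool.Agent.Q58.FI (eqs)

theorem result {k : Type} [Field k] [Algebra k ℂ] {n m r l M : ℕ}
    -- forms of degrees `d a`, whose coefficients are algebraically independent over `k`
    {A : Type} [Fintype A] (d : A → ℕ)
    (F : A → MvPolynomial (Fin (n + 1)) ℂ) (hF : ∀ a, (F a).IsHomogeneous (d a))
    (hgen : AlgebraicIndependent k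
      fun p : (a : A) × {I : Fin (n + 1) →₀ ℕ // I.degree = d a} => (F p.1).coeff p.2.1)
    -- a projective variety `Y = {Φ = 0}`
    {μ : Type} (Φ : μ → MvPolynomial (Fin (M + 1)) ℂ) (hΦ : ∀ e, IsForm (Φ e)) :
    -- the images of the covers
    (∀ (V : Set (MvPolynomial (Fin (n + 1)) (algebraicClosure k ℂ))),
      (∀ f ∈ V, ∃ e, f.IsHomogeneous e) → DimLE (algebraicClosure k ℂ) V m →
      -- a projective variety `W = {Ψ = 0}`
      ∀ (κ : Type) (Ψ : κ → MvPolynomial (Fin (l + 1)) ℂ), (∀ e, IsForm (Ψ e)) →
      -- a morphism from `W` to the intersection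
      ∀ (B : Fin (n + 1) → MvPolynomial (Fin (l + 1)) ℂ), Mor Ψ (eqs V F) B →
      -- a surjective morphism from `W` to `Y`, with fibres of at most `r` points
      ∀ (G : Fin (M + 1) → MvPolynomial (Fin (l + 1)) ℂ), Mor Ψ Φ G → Onto Ψ Φ G →
      FibresLe Ψ G r →
      -- (I)
      (2 * m + 2 * r ≤ ∑ a, (d a + 1) + 1 → ∀ (eB eG : ℕ), (∀ j, (B j).IsHomogeneous eB) →
        (∀ j, (G j).IsHomogeneous eG) → ∀ (L : Type) [Field L] [Algebra ℂ L] [IsFF ℂ L]
        (f : Fin (M + 1) → L), (∃ j, f j ≠ 0) → (∀ e, val f (Φ e) = 0) →
        eB * ((∑ a, (d a + 1) + 2 : ℕ) - 2 * m - 2 * r) * pht ℂ f ≤ eG * max (canDeg ℂ L) 0) ∧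
      -- (II)
      (2 * m + 1 + r ≤ ∑ a, (d a + 1) →
        BoundedOnCurves Φ ∧ (∀ P, ¬ GmCurve Φ P) ∧ AllGeneral Φ)) ∧
    -- (III) the images of the complete intersection
    (1 ≤ n → (∀ a, 0 < d a) → 1 ≤ r →
      ∀ (G : Fin (M + 1) → MvPolynomial (Fin (n + 1)) ℂ), Mor F Φ G → Onto F Φ G →
      FibresLe F G r → ∑ a, (d a + 1) ≤ 2 * n - 2 ∨ 2 * n + 2 * r ≤ ∑ a, (d a + 1) →
      [∃ C : ℕ, AlgHyperbolic C Φ, BoundedOnCurves Φ, ∀ P, ¬ GmCurve Φ P, AllGeneral Φ,
        2 * n - 1 ≤ ∑ a, (d a + 1)].TFAE) := by
  refine ⟨fun V hVh hV κ Ψ hΨ B hB G hG hon hfib => ⟨fun hd eB eG hBe hGe L _ _ _ f hf0 hf => ?_,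
    fun hd => ?_⟩, fun hn hd0 hr G hG hon hfib hd => ?_⟩
  · exact Pool.Agent.Q58.LG.curve_cpt hVh hV hd hF hgen hΨ hB hG hon hfib hBe hGe L f hf0 hf
  · have h1 := Pool.Agent.Q58.FI.general_im hVh hV hd hF hgen hΨ hB hG hon hfib
    exact ⟨Pool.Agent.Q58.FI.bounded_im hVh hV hd hF hgen hΨ hB hG hon hfib,
      fun P => Pool.Agent.Q58.LG.gm_of_general hΦ h1 P, h1⟩
  · exact Pool.Agent.Q58.LG.tfae_cpt hn hd0 hr hF hgen hΦ hG hon hfib hd

end Pool.Agent.Results.MP_6f117a_ag.ImagesOfIntersections
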