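import Pool.Agent.Q80.FH.Main

/-!
MP_6f117a_ag, Q1: algebraic notions of hyperbolicity, for the projective schemes with a finite morphism
to projective space which is ramified over many general hypersurfaces.
-/

set_option autoImplicit false

namespace Pool.Agent.Results.MP_6f117a_ag.RamifiedCoversHyperbolic

open Pool.Agent.Q80.FH MvPolynomial

/-- Let `k` be an algebraically closed field of characteristic zero, `n, d ≥ 1` and `m ≥ 2`,
`N + 1 = C(n + d, n)`, `2 N m ≤ K (m - 1)` and `q > C(N + K, N)`. Let `F 1, …, F q` be general forms of
degree `d` in `n + 1` variables over `k`. There is a constant `B` with the following property. Let `X` be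
a projective scheme over `k` with a finite morphism to projective `n`-space which is ramified with the
multiplicity at least `m` over the hypersurfaces `F i = 0`. Then `X` is algebraically hyperbolic with
the constant `B`, and all closed subvarieties of `X` of positive dimension are of general type. More
generally, if the morphism is so ramified outside the closed subscheme `D` of `X` defined by forms
`G t` of degrees `γ t`, then `(X, D)` is algebraically hyperbolic with the constant `B`, and for all
closed subvarieties `Y` of `X` of positive dimension which are not contained in `D` the variety `Y ∖ D`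
is of logarithmic general type. -/
theorem result (k : Type) [Field k] [IsAlgClosed k] [CharZero k] {n d m N K q : ℕ} (hn : 1 ≤ n)
    (hd : 1 ≤ d) (hm : 2 ≤ m) (hN : N + 1 = (n + d).choose n) (hK : 2 * N * m ≤ K * (m - 1))
    (hq : (N + K).choose N < q) :
    ∃ Ψ : MvPolynomial (Fin q × Exps n d) k, Ψ ≠ 0 ∧
      ∀ F : Fin q → MvPolynomial (Fin (n + 1)) k, (∀ i, (F i).IsHomogeneous d) →
        eval (fun x => coeff x.2.1 (F x.1)) Ψ ≠ 0 →
          (∃ B : ℕ, ∀ (r : ℕ) (X : FinCover k n r),
            (X.Ramified F m d → X.AlgHyp B ∧ X.AllGeneralType) ∧
            ∀ (κ : Type) (G : κ → MvPolynomial (Fin (n + 1) ⊕ Fin r) k) (γ : κ → ℕ),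
              X.RamifiedOff F m d G γ → X.AlgHypOff B G γ ∧ X.AllLogGeneralType G γ) :=
  main_k k hn hd hm hN hK hq

end Pool.Agent.Results.MP_6f117a_ag.RamifiedCoversHyperbolic
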