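import Pool.Agent.Q309.OFF.Conv

/-!
Recurrent families of maps to projective varieties, over algebraically closed fields of
characteristic zero: all but boundedly many members lie on rational curves of bounded degree, and
varieties without rational curves contain boundedly many members of each family, uniformly in the
variety, in the field of functions and in the family.
-/

set_option autoImplicit false

namespace Pool.Agent.Results.MP_6f117a_ag.RecurrentFamilies

open MvPolynomial
open Pool.Agent.Q309.OFF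
open Pool.Agent.Q309.PO
open Pool.Agent.Q171.RC (OnRat NC)

variable {n : ℕ}

/-- All forms in `S` vanish at the vector `x`. -/
def On {k L : Type} [Field k] [Field L] [Algebra k L] (S : Set (MvPolynomial (Fin (n + 1)) k))
    (x : Fin (n + 1) → L) : Prop :=
  ∀ F ∈ S, eval x (map (algebraMap k L) F) = 0

/-- The form `G` over `k` does not vanish at the vector `x`. -/
def Off {k L : Type} [Field k] [Field L] [Algebra k L] (G : MvPolynomial (Fin (n + 1)) k)
    (x : Fin (n + 1) → L) : Prop :=
  eval x (map (algebraMap k L) G) ≠ 0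

/-- `p` is a nonconstant rational curve of degree at most `d` in the variety of `S`. -/
def Curve {k : Type} [Field k] (S : Set (MvPolynomial (Fin (n + 1)) k)) (d : ℕ)
    (p : Fin (n + 1) → Polynomial k) : Prop :=
  NC p ∧ (∀ j, (p j).natDegree ≤ d) ∧ ∀ F ∈ S, aeval p F = 0

/-- The polynomial `G` vanishes on all nonconstant rational curves of degree at most `N` in the
variety of the forms in `S`. -/
def RatZero {k : Type} [Field k] (S : Set (MvPolynomial (Fin (n + 1)) k)) (N : ℕ)
    (G : MvPolynomial (Fin (n + 1)) k) : Prop :=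
  ∀ p : Fin (n + 1) → Polynomial k, Curve S N p → aeval p G = 0

/-- The vectors `v` and `w` are proportional. -/
def Prop2 {L : Type} [Field L] (v w : Fin (n + 1) → L) : Prop :=
  ∀ i j, v i * w j = v j * w i

/-- There are at most `N` different points with the property `P` among `x 0, ..., x M`. -/
def Few {L : Type} [Field L] (N M : ℕ) (P : (Fin (n + 1) → L) → Prop)
    (x : ℕ → Fin (n + 1) → L) : Prop :=
  ∃ I : Finset ℕ, I.card ≤ N ∧ ∀ m ≤ M, P (x m) → ∃ i ∈ I, i ≤ M ∧ Prop2 (x i) (x m)

/-- The point `p (u ^ (2 ^ m))`. -/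
noncomputable def powPt {k L : Type} [Field k] [Field L] [Algebra k L]
    (p : Fin (n + 1) → Polynomial k) (u : L) (m : ℕ) : Fin (n + 1) → L :=
  fun j => Polynomial.aeval (u ^ (2 ^ m)) (p j)

theorem result (n D r e q : ℕ) : ∃ N : ℕ, ∀ (k : Type) [Field k] [CharZero k] [IsAlgClosed k]
    (S : Set (MvPolynomial (Fin (n + 1)) k)), (∀ F ∈ S, ∃ d, d ≤ D ∧ F.IsHomogeneous d) →
    -- (1) all but `N` points of each sequence lie on rational curves of degree at most `N`
    (∀ (M : ℕ) (x : ℕ → Fin (n + 1) → k), OSeq r e q M x → (∀ m ≤ M, On S (x m)) →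
      Few N M (fun v => ¬ OnRat S N v) x) ∧
    ∀ G : MvPolynomial (Fin (n + 1)) k,
    -- (2) families of points over all extensions of `k`
      (RatZero S N G → ∀ (L : Type) [Field L] [Algebra k L] (M : ℕ) (x : ℕ → Fin (n + 1) → L),
        OSeq r e q M x → (∀ m ≤ M, On S (x m)) → Few N M (Off G) x) ∧
    -- (3) the converse
      ∀ (d : ℕ) (p : Fin (n + 1) → Polynomial k), Curve S d p → aeval p G ≠ 0 →
        ∀ (L : Type) [Field L] [Algebra k L] (u : L), u ∉ Set.range (algebraMap k L) →
          ORec 1 (2 * d) 2 (powPt p u) ∧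
          (∀ m, powPt p u m ≠ 0 ∧ On S (powPt p u m) ∧ Off G (powPt p u m)) ∧
          ∀ m m' : ℕ, m < m' → ¬ Prop2 (powPt p u m) (powPt p u m') := by
  obtain ⟨N, hN⟩ := off_alg n D r e q
  refine ⟨N, fun k _ _ _ S hS => ⟨fun M x hx hX => hN k S hS M x hx fun m hm F hF => ?_,
    fun G => ⟨fun hG L _ _ M x hx hX =>
      few_ext hN hS (fun p h1 h2 h3 => hG p ⟨h1, h2, h3⟩) L M x hx hX,
    fun d p ⟨hp, hd, hF⟩ hG L _ _ u hu => ?_⟩⟩⟩
  · have h1 := hX m hm F hF
    rwa [Algebra.algebraMap_self, MvPolynomial.map_id] at h1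
  obtain ⟨h1, h2⟩ := pow_points hp hd hu
  have htr : Transcendental k u := trans_of_not_range hu
  have hne : ∀ (m : ℕ) (Q : Polynomial k), Q ≠ 0 → Polynomial.aeval (u ^ (2 ^ m)) Q ≠ 0 := by
    intro m Q hQ h0
    exact hQ (transcendental_iff.1 (htr.pow (n := 2 ^ m) (by positivity)) Q h0)
  refine ⟨h1, fun m => ⟨fun h0 => ?_, fun F hFS => pow_on (hF F hFS) _, fun h0 => ?_⟩, h2⟩
  · obtain ⟨s, t, i, j, hst⟩ := hp
    have hz : ∀ l, p l = 0 := by
      intro l
      by_contra hl
      exact hne m (p l) hl (congrFun h0 l)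
    apply hst
    rw [hz i, hz j, Polynomial.eval_zero, Polynomial.eval_zero]
  · rw [eval_map] at h0
    have h3 := MvPolynomial.comp_aeval_apply (f := p)
      (Polynomial.aeval (u ^ (2 ^ m)) : Polynomial k →ₐ[k] L) G
    exact hne m _ hG (h3.trans h0)

end Pool.Agent.Results.MP_6f117a_ag.RecurrentFamilies
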